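import Pool.Agent.Q27.Hk.Sums

/-!
# The centrality argument in an algebra of Hecke type
-/

set_option autoImplicit false

namespace Q27.Hk

open Equiv Finset Polynomial

variable {m : ℕ}

/-- `i ∈ J` and `j < N` with `w j = i`, `w (j + 1) = i + 1`. -/
def Bad (N : ℕ) (J : Set (Fin m)) (w : S m) : Prop :=
  ∃ i ∈ J, ∃ j : Fin m, j.val < N ∧ w j.castSucc = i.castSucc ∧ w j.succ = i.succ

/-- The data of the argument. -/
structure Setup {K A : Type*} [Field K] [Ring A] [Algebra K A] (q : K) (t : Fin m → A)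
    (N : ℕ) (J : Set (Fin m)) (γ : S m) (E Y : A) : Prop where
  rel : Rel q t
  hq : q + q⁻¹ ≠ 0
  E1 : ∀ i ∈ J, E * t i = q • E
  E2 : ∀ i ∈ J, t i * E = q • E
  Y1 : ∀ j : Fin m, j.val < N → t j * Y = (-q⁻¹) • Y
  Y2 : ∀ j : Fin m, j.val < N → Y * t j = (-q⁻¹) • Y
  Y3 : ∀ j : Fin m, N < j.val → Y * t j = t j * Y
  G : ∀ w : S m, InD N w → (∀ i ∈ J, Asc w i) → Bad N J w ∨ w = γ
  hγ : InD N γ

section

variable {K A : Type*} [Field K] [Ring A] [Algebra K A] {q : K} {t : Fin m → A}
  {N : ℕ} {J : Set (Fin m)} {γ : S m} {E Y : A}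

theorem eq_zero_of_two {x : A} (hq : q + q⁻¹ ≠ 0) (h : q • x = (-q⁻¹) • x) : x = 0 := by
  have h1 : (q + q⁻¹) • x = 0 := by
    rw [add_smul, h, neg_smul, neg_add_cancel]
  exact (smul_eq_zero_iff_right hq).1 h1

theorem Setup.bad_left (h : Setup q t N J γ E Y) {w : S m} (hw : Bad N J w) :
    E * T t w * Y = 0 := by
  obtain ⟨i, hi, j, hj, h1, h2⟩ := hw
  apply eq_zero_of_two h.hq
  calc q • (E * T t w * Y) = (E * t i) * T t w * Y := by
        rw [h.E1 i hi, smul_mul_assoc, smul_mul_assoc]
    _ = E * (t i * T t w) * Y := by simp only [mul_assoc]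
    _ = E * T t w * (t j * Y) := by rw [h.rel.t_T h1 h2]; simp only [mul_assoc]
    _ = _ := by rw [h.Y1 j hj, mul_smul_comm]

theorem Setup.bad_right (h : Setup q t N J γ E Y) {w : S m} (hw : Bad N J w) :
    Y * T t w⁻¹ * E = 0 := by
  obtain ⟨i, hi, j, hj, h1, h2⟩ := hw
  apply eq_zero_of_two h.hq
  calc q • (Y * T t w⁻¹ * E) = Y * T t w⁻¹ * (t i * E) := by
        rw [h.E2 i hi, mul_smul_comm]
    _ = Y * (T t w⁻¹ * t i) * E := by simp only [mul_assoc]
    _ = (Y * t j) * T t w⁻¹ * E := by rw [h.rel.T_t h1 h2]; simp only [mul_assoc]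
    _ = _ := by rw [h.Y2 j hj, smul_mul_assoc, smul_mul_assoc]

theorem Setup.dich (h : Setup q t N J γ E Y) {d : S m} (hd : InD N d) :
    E * T t d * Y = 0 ∨ ∃ k : ℕ, E * T t d = q ^ k • (E * T t γ) ∧
      T t d⁻¹ * E = q ^ k • (T t γ⁻¹ * E) := by
  induction hn : inv d using Nat.strong_induction_on generalizing d with
  | _ n ih =>
    by_cases hasc : ∀ i ∈ J, Asc d i
    · rcases h.G d hd hasc with h1 | h1
      · exact Or.inl (h.bad_left h1)
      · right
        refine ⟨0, ?_, ?_⟩
        · rw [h1, pow_zero, one_smul]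
        · rw [h1, pow_zero, one_smul]
    · push Not at hasc
      obtain ⟨i, hi, h1⟩ := hasc
      rw [not_asc] at h1
      have h2 := inv_desc h1
      have h3 := inD_of_desc hd h1
      have h4 : E * T t d = q • (E * T t (s i * d)) := by
        rw [h.rel.T_desc h1, ← mul_assoc, h.E1 i hi, smul_mul_assoc]
      have h5 : T t d⁻¹ * E = q • (T t (s i * d)⁻¹ * E) := by
        have h6 : d⁻¹ i.succ < d⁻¹ i.castSucc := h1
        have h7 : d⁻¹ * s i = (s i * d)⁻¹ := by rw [mul_inv_rev, s_inv]
        rw [h.rel.T_mul_desc h6, h7, mul_assoc, h.E2 i hi, mul_smul_comm]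
      rcases ih _ (by omega) h3 rfl with h6 | ⟨k, h6, h7⟩
      · left
        rw [h4, smul_mul_assoc, h6, smul_zero]
      · right
        refine ⟨k + 1, ?_, ?_⟩
        · rw [h4, h6, smul_smul, pow_succ, mul_comm]
        · rw [h5, h7, smul_smul, pow_succ, mul_comm]

theorem Setup.nice (h : Setup q t N J γ E Y) : Nice t N Y := by
  intro j hj
  rcases Nat.lt_or_ge j.val N with h1 | h1
  · rw [h.Y1 j h1, h.Y2 j h1]
  · exact h.Y3 j (by omega)

/-- `E Z E` is a nonzero multiple of `E T_γ Y T_{γ⁻¹} E`. -/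
theorem Setup.EZE (h : Setup q t N J γ E Y) : ∃ p : ℕ[X], p.eval 1 ≠ 0 ∧
    E * Zs t N Y * E = (p.eval₂ (Nat.castRingHom K) q) • (E * T t γ * Y * T t γ⁻¹ * E) := by
  classical
  have key : ∀ d : S m, ∃ p : ℕ[X], (d = γ → p.eval 1 ≠ 0) ∧ (InD N d →
      E * (T t d * Y * T t d⁻¹) * E =
        (p.eval₂ (Nat.castRingHom K) q) • (E * T t γ * Y * T t γ⁻¹ * E)) := by
    intro d
    by_cases hdγ : d = γ
    · refine ⟨1, fun _ => by simp, fun _ => ?_⟩
      rw [hdγ, eval₂_one, one_smul]
      simp only [mul_assoc]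
    · by_cases hd : InD N d
      · rcases h.dich hd with h1 | ⟨k, h1, h2⟩
        · refine ⟨0, fun h3 => absurd h3 hdγ, fun _ => ?_⟩
          rw [eval₂_zero, zero_smul]
          calc E * (T t d * Y * T t d⁻¹) * E = (E * T t d * Y) * T t d⁻¹ * E := by
                simp only [mul_assoc]
            _ = 0 := by rw [h1, zero_mul, zero_mul]
        · refine ⟨X ^ (k + k), fun h3 => absurd h3 hdγ, fun _ => ?_⟩
          rw [eval₂_pow, eval₂_X]
          calc E * (T t d * Y * T t d⁻¹) * E = (E * T t d) * Y * (T t d⁻¹ * E) := by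
                simp only [mul_assoc]
            _ = _ := by
                rw [h1, h2, smul_mul_assoc, smul_mul_assoc, mul_smul_comm, smul_smul, ← pow_add]
                simp only [mul_assoc]
      · exact ⟨0, fun h3 => absurd h3 hdγ, fun h3 => absurd h3 hd⟩
  choose p hp1 hp2 using key
  refine ⟨∑ d ∈ univ.filter (fun d => InD N d), p d, ?_, ?_⟩
  · rw [eval_finsetSum]
    have h1 : γ ∈ univ.filter (fun d : S m => InD N d) := mem_filter.2 ⟨mem_univ _, h.hγ⟩
    have h2 : (p γ).eval 1 ≤ ∑ d ∈ univ.filter (fun d : S m => InD N d), (p d).eval 1 :=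
      single_le_sum (f := fun d => (p d).eval 1) (fun d _ => Nat.zero_le _) h1
    have h3 := hp1 γ rfl
    omega
  · unfold Zs
    rw [mul_sum, sum_mul, eval₂_finsetSum, sum_smul]
    apply sum_congr rfl
    intro d hd
    exact hp2 d (mem_filter.1 hd).2

/-- Short elements are killed. -/
theorem Setup.short (h : Setup q t N J γ E Y) {w : S m} (hw : inv w < inv γ) :
    Y * T t w * E = 0 := by
  induction hn : inv w using Nat.strong_induction_on generalizing w with
  | _ n ih =>
    by_cases h1 : ∃ j : Fin m, j.val ≠ N ∧ Desc w j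
    · obtain ⟨j, hj, h2⟩ := h1
      have h3 := inv_desc h2
      have h4 := ih _ (by omega) (w := s j * w) (by omega) rfl
      rw [h.rel.T_desc h2, ← mul_assoc, h.nice j hj, mul_assoc, mul_assoc, ← mul_assoc Y, h4,
        mul_zero]
    by_cases h2 : ∃ i ∈ J, w i.succ < w i.castSucc
    · obtain ⟨i, hi, h3⟩ := h2
      have h4 := inv_mul_s_desc h3
      have h5 := ih _ (by omega) (w := w * s i) (by omega) rfl
      rw [h.rel.T_mul_desc h3, mul_assoc, mul_assoc, h.E2 i hi, mul_smul_comm, mul_smul_comm,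
        ← mul_assoc, h5, smul_zero]
    push Not at h1 h2
    have h3 : InD N w⁻¹ := by
      intro j hj
      rcases asc_or_desc w j with h4 | h4
      · exact h4
      · exact absurd h4 (h1 j hj)
    have h4 : ∀ i ∈ J, Asc w⁻¹ i := by
      intro i hi
      unfold Asc
      rw [_root_.inv_inv]
      rcases lt_or_eq_of_le (h2 i hi) with h5 | h5
      · exact h5
      · have h6 := congrArg Fin.val (w.injective h5)
        simp at h6
    rcases h.G _ h3 h4 with h5 | h5
    · have h6 := h.bad_right h5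
      rwa [_root_.inv_inv] at h6
    · rw [← h5, inv_symm] at hw
      exact absurd hw (lt_irrefl _)

/-! ### Inverse words -/

/-- The span of the `T_w` with few inversions. -/
def V (K : Type*) {A : Type*} [Field K] [Ring A] [Algebra K A] (t : Fin m → A) (k : ℕ) :
    Submodule K A := Submodule.span K {x | ∃ w : S m, inv w < k ∧ x = T t w}

theorem T_mem_V {w : S m} {k : ℕ} (h : inv w < k) : T t w ∈ V K t k :=
  Submodule.subset_span ⟨w, h, rfl⟩

theorem V_mono {k l : ℕ} (h : k ≤ l) : V K t k ≤ V K t l := by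
  unfold V
  apply Submodule.span_mono
  rintro x ⟨w, hw, rfl⟩
  exact ⟨w, by omega, rfl⟩

theorem Rel.t_mul_V (h : Rel q t) {k : ℕ} {x : A} (hx : x ∈ V K t k) (i : Fin m) :
    t i * x ∈ V K t (k + 1) := by
  unfold V at hx
  induction hx using Submodule.span_induction with
  | mem x hx =>
    obtain ⟨w, hw, rfl⟩ := hx
    rcases asc_or_desc w i with h1 | h1
    · rw [← h.T_asc h1]
      apply T_mem_V
      rw [inv_asc h1]
      omega
    · rw [h.mul_T_desc h1]
      have h2 := inv_desc h1
      exact Submodule.add_mem _ (T_mem_V (by omega)) (Submodule.smul_mem _ _ (T_mem_V (by omega)))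
  | zero => rw [mul_zero]; exact Submodule.zero_mem _
  | add x y _ _ hx hy => rw [mul_add]; exact Submodule.add_mem _ hx hy
  | smul a x _ hx => rw [mul_smul_comm]; exact Submodule.smul_mem _ _ hx

theorem Rel.word_mem_V (h : Rel q t) (ω : List (Fin m)) :
    (ω.map t).prod ∈ V K t (ω.length + 1) := by
  induction ω with
  | nil =>
    rw [List.map_nil, List.prod_nil, ← T_one t]
    apply T_mem_V
    rw [inv_one]
    simp
  | cons i ω ih =>
    rw [List.map_cons, List.prod_cons, List.length_cons]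
    exact h.t_mul_V ih i

/-- The inverse of `t i`. -/
def ti (q : K) (t : Fin m → A) (i : Fin m) : A := t i - algebraMap K A (q - q⁻¹)

theorem Rel.t_ti (h : Rel q t) (i : Fin m) : t i * ti q t i = 1 := by
  unfold ti
  rw [mul_sub, h.quad, ← Algebra.commutes, ← Algebra.smul_def, add_sub_cancel_right]

theorem Rel.ti_t (h : Rel q t) (i : Fin m) : ti q t i * t i = 1 := by
  unfold ti
  rw [sub_mul, h.quad, ← Algebra.smul_def, add_sub_cancel_right]

theorem Rel.word_sub_mem_V (h : Rel q t) (ω : List (Fin m)) :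
    (ω.map (ti q t)).prod - (ω.map t).prod ∈ V K t ω.length := by
  induction ω with
  | nil => simp
  | cons i ω ih =>
    have e : ((i :: ω).map (ti q t)).prod - ((i :: ω).map t).prod =
        t i * ((ω.map (ti q t)).prod - (ω.map t).prod)
        - (q - q⁻¹) • ((ω.map (ti q t)).prod - (ω.map t).prod)
        - (q - q⁻¹) • (ω.map t).prod := by
      rw [List.map_cons, List.map_cons, List.prod_cons, List.prod_cons]
      generalize (ω.map (ti q t)).prod = x
      generalize (ω.map t).prod = y
      unfold ti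
      rw [sub_mul, ← Algebra.smul_def, mul_sub, smul_sub]
      abel
    rw [e, List.length_cons]
    refine Submodule.sub_mem _ (Submodule.sub_mem _ (h.t_mul_V ih i) ?_) ?_
    · exact Submodule.smul_mem _ _ (V_mono (by omega) ih)
    · exact Submodule.smul_mem _ _ (h.word_mem_V ω)

theorem Rel.word_inv (h : Rel q t) (ω : List (Fin m)) :
    (ω.map t).prod * (ω.reverse.map (ti q t)).prod = 1 ∧
      (ω.reverse.map (ti q t)).prod * (ω.map t).prod = 1 := by
  induction ω with
  | nil => simp
  | cons i ω ih =>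
    rw [List.map_cons, List.prod_cons, List.reverse_cons, List.map_append, List.prod_append,
      List.map_cons, List.map_nil, List.prod_cons, List.prod_nil, mul_one]
    constructor
    · calc t i * (ω.map t).prod * ((ω.reverse.map (ti q t)).prod * ti q t i)
          = t i * ((ω.map t).prod * (ω.reverse.map (ti q t)).prod) * ti q t i := by
            simp only [mul_assoc]
        _ = 1 := by rw [ih.1, mul_one, h.t_ti]
    · calc (ω.reverse.map (ti q t)).prod * ti q t i * (t i * (ω.map t).prod)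
          = (ω.reverse.map (ti q t)).prod * (ti q t i * t i) * (ω.map t).prod := by
            simp only [mul_assoc]
        _ = 1 := by rw [h.ti_t, mul_one, ih.2]

theorem wp_reverse (ω : List (Fin m)) : wp ω.reverse = (wp ω)⁻¹ := by
  induction ω with
  | nil => simp
  | cons i ω ih =>
    have h1 : ∀ a b : List (Fin m), wp (a ++ b) = wp a * wp b := by
      intro a b
      unfold wp
      rw [List.map_append, List.prod_append]
    rw [List.reverse_cons, h1, ih, wp_cons, wp_cons, wp_nil, mul_one, mul_inv_rev, s_inv]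

/-- The inverse of `T_γ` may be replaced by `T_{γ⁻¹}`. -/
theorem Setup.inv_eq (h : Setup q t N J γ E Y) {ω : List (Fin m)} (h1 : wp ω = γ)
    (h2 : ω.length = inv γ) :
    Y * (ω.reverse.map (ti q t)).prod * E = Y * T t γ⁻¹ * E := by
  have h3 : T t γ⁻¹ = (ω.reverse.map t).prod := by
    rw [← h1, ← wp_reverse]
    apply h.rel.T_word
    rw [wp_reverse, inv_symm, List.length_reverse, h2, h1]
  rw [h3, ← sub_eq_zero, ← sub_mul, ← mul_sub]
  have h4 := h.rel.word_sub_mem_V ω.reverse
  rw [List.length_reverse, h2] at h4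
  have h5 : ∀ x ∈ V K t (inv γ), Y * x * E = 0 := by
    intro x hx
    unfold V at hx
    induction hx using Submodule.span_induction with
    | mem x hx =>
      obtain ⟨w, hw, rfl⟩ := hx
      exact h.short hw
    | zero => rw [mul_zero, zero_mul]
    | add x y _ _ hx hy => rw [mul_add, add_mul, hx, hy, add_zero]
    | smul a x _ hx => rw [mul_smul_comm, smul_mul_assoc, hx, smul_zero]
  exact h5 _ h4

/-- The main conclusion: `E T_γ Y T_γ⁻¹ E` is a multiple of `E Z E`. -/
theorem Setup.main (h : Setup q t N J γ E Y)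
    (hpos : ∀ p : ℕ[X], p.eval 1 ≠ 0 → p.eval₂ (Nat.castRingHom K) q ≠ 0)
    {ω : List (Fin m)} (h1 : wp ω = γ) (h2 : ω.length = inv γ) :
    ∃ c : K, E * (ω.map t).prod * Y * (ω.reverse.map (ti q t)).prod * E =
      c • (E * Zs t N Y * E) := by
  obtain ⟨p, hp1, hp2⟩ := h.EZE
  have h3 := hpos p hp1
  refine ⟨(p.eval₂ (Nat.castRingHom K) q)⁻¹, ?_⟩
  rw [hp2, smul_smul, inv_mul_cancel₀ h3, one_smul]
  have h4 : T t γ = (ω.map t).prod := by
    rw [← h1]
    apply h.rel.T_word
    rw [h2, h1]
  rw [h4]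
  calc E * (ω.map t).prod * Y * (ω.reverse.map (ti q t)).prod * E
      = E * (ω.map t).prod * (Y * (ω.reverse.map (ti q t)).prod * E) := by
        simp only [mul_assoc]
    _ = _ := by
        rw [h.inv_eq h1 h2]
        simp only [mul_assoc]

end

end Q27.Hk
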