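import Pool.Agent.Q27.Hk.Alg

/-!
# The permutation `γ_μ`
-/

set_option autoImplicit false

namespace Q27.Hk

open Equiv Finset

variable {m : ℕ}

/-- The partial sums of a composition of `m + 1` with `N + 1` parts. -/
structure Comp (N m : ℕ) (M : ℕ → ℕ) : Prop where
  zero : M 0 = 0
  lt : ∀ k, k ≤ N → M k < M (k + 1)
  last : M (N + 1) = m + 1

namespace Comp

variable {N : ℕ} {M : ℕ → ℕ}

theorem mono (h : Comp N m M) {i j : ℕ} (hij : i < j) (hj : j ≤ N + 1) : M i < M j := by
  induction j with
  | zero => omega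
  | succ j ih =>
    have h1 := h.lt j (by omega)
    rcases Nat.lt_or_ge i j with h2 | h2
    · exact lt_trans (ih h2 (by omega)) h1
    · have : i = j := by omega
      rw [this]
      exact h1

theorem self_le (h : Comp N m M) {k : ℕ} (hk : k ≤ N + 1) : k ≤ M k := by
  induction k with
  | zero => omega
  | succ k ih =>
    have h1 := h.lt k (by omega)
    have h2 := ih (by omega)
    omega

theorem le_m (h : Comp N m M) {k : ℕ} (hk : k ≤ N) : M k ≤ m := by
  have h1 := h.mono (show k < N + 1 by omega) le_rfl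
  rw [h.last] at h1
  omega

theorem N_le (h : Comp N m M) : N ≤ m := by
  have := h.self_le (le_refl (N + 1))
  rw [h.last] at this
  omega

end Comp

/-- The word `k + r - 1, …, k`. -/
def cw (k : ℕ) : ℕ → List ℕ
  | 0 => []
  | r + 1 => (k + r) :: cw k r

/-- The word of `γ`, from the `k`th factor on. -/
def gw (M : ℕ → ℕ) : ℕ → ℕ → List ℕ
  | _, 0 => []
  | k, n + 1 => cw k (M k - k) ++ gw M (k + 1) n

/-- The action of a word on the natural numbers. -/
def act (l : List ℕ) (a : ℕ) : ℕ := l.foldr sw a

theorem act_append (l l' : List ℕ) (a : ℕ) : act (l ++ l') a = act l (act l' a) := by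
  unfold act
  rw [List.foldr_append]

theorem act_cw (k r a : ℕ) : act (cw k r) a =
    if a < k then a else if a = k then k + r else if a ≤ k + r then a - 1 else a := by
  induction r with
  | zero =>
    change a = _
    split_ifs <;> omega
  | succ r ih =>
    change sw (k + r) (act (cw k r) a) = _
    rw [ih]
    unfold sw
    split_ifs <;> omega

theorem act_wp (ω : List (Fin m)) (x : Fin (m + 1)) :
    (wp ω x).val = act (ω.map Fin.val) x.val := by
  induction ω with
  | nil => rfl
  | cons i ω ih =>
    rw [wp_cons, Equiv.Perm.mul_apply, s_val', ih]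
    rfl

theorem cw_lt (k r : ℕ) : ∀ a ∈ cw k r, a < k + r := by
  induction r with
  | zero => intro a ha; exact absurd ha (by simp [cw])
  | succ r ih =>
    intro a ha
    rw [cw, List.mem_cons] at ha
    rcases ha with rfl | ha
    · omega
    · have := ih a ha
      omega

theorem gw_lt {N : ℕ} {M : ℕ → ℕ} (h : Comp N m M) : ∀ n k : ℕ, 1 ≤ k → k + n ≤ N + 1 →
    ∀ a ∈ gw M k n, a < m := by
  intro n
  induction n with
  | zero => intro k _ _ a ha; exact absurd ha (by simp [gw])
  | succ n ih =>
    intro k hk hkn a ha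
    rw [gw, List.mem_append] at ha
    rcases ha with ha | ha
    · have h1 := cw_lt _ _ a ha
      have h2 := h.le_m (show k ≤ N by omega)
      have h3 := h.self_le (show k ≤ N + 1 by omega)
      omega
    · exact ih (k + 1) (by omega) (by omega) a ha

theorem gw_props {N : ℕ} {M : ℕ → ℕ} (h : Comp N m M) : ∀ n k : ℕ, 1 ≤ k → k + n ≤ N + 1 →
    (∀ a, a < k → act (gw M k n) a = a) ∧
    (∀ a, k ≤ a → a < k + n → act (gw M k n) a = M a) ∧
    (∀ a b, k + n ≤ a → a < b → act (gw M k n) a < act (gw M k n) b) ∧
    (∀ a, k ≤ a → k ≤ act (gw M k n) a) := by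
  intro n
  induction n with
  | zero =>
    intro k _ _
    refine ⟨fun a _ => rfl, fun a h1 h2 => absurd h1 (by omega), fun a b _ h2 => h2,
      fun a h1 => h1⟩
  | succ n ih =>
    intro k hk hkn
    obtain ⟨h1, h2, h3, h4⟩ := ih (k + 1) (by omega) (by omega)
    have h5 := h.self_le (show k ≤ N + 1 by omega)
    have e : ∀ a, act (gw M k (n + 1)) a = act (cw k (M k - k)) (act (gw M (k + 1) n) a) := by
      intro a
      rw [gw, act_append]
    refine ⟨?_, ?_, ?_, ?_⟩
    · intro a ha
      rw [e, h1 a (by omega), act_cw, if_pos ha]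
    · intro a ha1 ha2
      rw [e]
      rcases Nat.eq_or_lt_of_le ha1 with h6 | h6
      · rw [h1 a (by omega), act_cw, if_neg (by omega), if_pos h6.symm, ← h6]
        omega
      · have h7 := h.mono h6 (by omega)
        rw [h2 a (by omega) (by omega), act_cw, if_neg (by omega), if_neg (by omega),
          if_neg (by omega)]
    · intro a b ha hab
      rw [e, e, act_cw, act_cw]
      have h6 := h3 a b (by omega) hab
      have h7 := h4 a (by omega)
      split_ifs <;> omega
    · intro a ha
      rw [e, act_cw]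
      rcases Nat.eq_or_lt_of_le ha with h6 | h6
      · rw [h1 a (by omega)]
        split_ifs <;> omega
      · have h7 := h4 a (by omega)
        split_ifs <;> omega

theorem cw_inv (k : ℕ) (hk : k ≤ m) {w : S m} (hw : ∀ x : Fin (m + 1), x.val ≤ k → w x = x) :
    ∀ (r : ℕ) (ω : List (Fin m)), ω.map Fin.val = cw k r → inv (wp ω * w) = r + inv w := by
  intro r
  induction r with
  | zero =>
    intro ω hω
    rw [cw, List.map_eq_nil_iff] at hω
    rw [hω, wp_nil, one_mul, Nat.zero_add]
  | succ r ih =>
    intro ω hω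
    cases ω with
    | nil => simp [cw] at hω
    | cons i ω =>
      rw [List.map_cons, cw, List.cons.injEq] at hω
      obtain ⟨h1, h2⟩ := hω
      have h3 := ih ω h2
      rw [wp_cons, mul_assoc, inv_asc, h3]
      · omega
      · -- the ascent
        unfold Asc
        set u := wp ω * w with hu
        have e1 : (⟨k, by omega⟩ : Fin (m + 1)) = u⁻¹ i.castSucc := by
          rw [Equiv.Perm.eq_inv_iff_eq]
          apply Fin.ext
          rw [hu, Equiv.Perm.mul_apply, hw _ le_rfl, act_wp, h2, act_cw, if_neg (by simp),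
            if_pos rfl, Fin.val_castSucc, h1]
        rw [← e1]
        by_contra hcon
        rw [not_lt, Fin.le_def] at hcon
        have hcon' : (u⁻¹ i.succ).val ≤ k := hcon
        have e2 : (u (u⁻¹ i.succ)).val = k + r + 1 := by
          rw [apply_inv_self', Fin.val_succ, h1]
        rw [hu, Equiv.Perm.mul_apply, ← hu, hw _ hcon', act_wp, h2, act_cw] at e2
        split_ifs at e2 <;> omega

theorem gw_inv {N : ℕ} {M : ℕ → ℕ} (h : Comp N m M) : ∀ n k : ℕ, 1 ≤ k → k + n ≤ N + 1 →
    ∀ ω : List (Fin m), ω.map Fin.val = gw M k n → inv (wp ω) = ω.length := by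
  intro n
  induction n with
  | zero =>
    intro k _ _ ω hω
    rw [gw, List.map_eq_nil_iff] at hω
    rw [hω, wp_nil, inv_one]
    rfl
  | succ n ih =>
    intro k hk hkn ω hω
    rw [gw, List.map_eq_append_iff] at hω
    obtain ⟨ω₁, ω₂, rfl, h1, h2⟩ := hω
    have h3 := ih (k + 1) (by omega) (by omega) ω₂ h2
    obtain ⟨p1, p2, p3, p4⟩ := gw_props h n (k + 1) (by omega) (by omega)
    have h4 := h.le_m (show k ≤ N by omega)
    have h5 := h.self_le (show k ≤ N + 1 by omega)
    have h6 := cw_inv k (by omega) (w := wp ω₂) (by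
      intro x hx
      apply Fin.ext
      rw [act_wp, h2, p1 _ (by omega)]) _ ω₁ h1
    have h7 : wp (ω₁ ++ ω₂) = wp ω₁ * wp ω₂ := by
      unfold wp
      rw [List.map_append, List.prod_append]
    have h8 : ω₁.length = M k - k := by
      rw [← List.length_map (f := Fin.val), h1]
      have h9 : ∀ r, (cw k r).length = r := by
        intro r
        induction r with
        | zero => rfl
        | succ r ihr => rw [cw, List.length_cons, ihr]
      exact h9 _
    rw [h7, h6, h3, List.length_append, h8]

theorem exists_fin_word (l : List ℕ) (hl : ∀ a ∈ l, a < m) :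
    ∃ ω : List (Fin m), ω.map Fin.val = l := by
  induction l with
  | nil => exact ⟨[], rfl⟩
  | cons a l ih =>
    obtain ⟨ω, hω⟩ := ih (fun b hb => hl b (List.mem_cons_of_mem _ hb))
    exact ⟨⟨a, hl a List.mem_cons_self⟩ :: ω, by rw [List.map_cons, hω]⟩

/-- The set `J`. -/
def Jset (N m : ℕ) (M : ℕ → ℕ) : Set (Fin m) :=
  {i | ∀ k, 1 ≤ k → k ≤ N → i.val + 1 ≠ M k}

theorem mem_Jset {N : ℕ} {M : ℕ → ℕ} (h : Comp N m M) {i : Fin m} {k : ℕ} (hk : k ≤ N)
    (h1 : M k ≤ i.val) (h2 : i.val + 1 < M (k + 1)) : i ∈ Jset N m M := by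
  intro l hl1 hl2 h3
  rcases Nat.lt_or_ge k l with h4 | h4
  · rcases Nat.eq_or_lt_of_le (show k + 1 ≤ l from h4) with h5 | h5
    · rw [← h5] at h3
      omega
    · have := h.mono h5 (by omega)
      omega
  · rcases Nat.eq_or_lt_of_le h4 with h5 | h5
    · rw [h5] at h3
      omega
    · have := h.mono h5 (by omega)
      omega

/-- Two consecutive values in one block give a bad pair. -/
theorem bad_of_block {N : ℕ} {M : ℕ → ℕ} (h : Comp N m M) {w : S m}
    (hJ : ∀ i ∈ Jset N m M, Asc w i) {j : Fin m} (hj : j.val < N)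
    (hw : w j.castSucc < w j.succ) {k : ℕ} (hk : k ≤ N) (h1 : M k ≤ (w j.castSucc).val)
    (h2 : (w j.succ).val < M (k + 1)) : Bad N (Jset N m M) w := by
  have hw' : (w j.castSucc).val < (w j.succ).val := hw
  have hlast : M (k + 1) ≤ m + 1 := by
    rcases Nat.eq_or_lt_of_le hk with h3 | h3
    · rw [h3, h.last]
    · have := h.le_m (show k + 1 ≤ N from h3)
      omega
  -- `w⁻¹` is increasing on the block
  have hinc : ∀ d : ℕ, ∀ x y : Fin (m + 1), M k ≤ x.val → y.val < M (k + 1) →
      x.val + d + 1 = y.val → w⁻¹ x < w⁻¹ y := by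
    intro d
    induction d with
    | zero =>
      intro x y hx hy hxy
      have h3 := hJ ⟨x.val, by omega⟩ (mem_Jset h hk hx (by simp only; omega))
      unfold Asc at h3
      have e1 : (⟨x.val, by omega⟩ : Fin m).castSucc = x := Fin.ext rfl
      have e2 : (⟨x.val, by omega⟩ : Fin m).succ = y := Fin.ext (by simp; omega)
      rwa [e1, e2] at h3
    | succ d ih =>
      intro x y hx hy hxy
      have h3 := ih x ⟨x.val + d + 1, by omega⟩ hx (by simp only; omega) rfl
      have h4 := hJ ⟨x.val + d + 1, by omega⟩ (mem_Jset h hk (by simp only; omega)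
        (by simp only; omega))
      unfold Asc at h4
      have e1 : (⟨x.val + d + 1, by omega⟩ : Fin m).castSucc = ⟨x.val + d + 1, by omega⟩ :=
        Fin.ext rfl
      have e2 : (⟨x.val + d + 1, by omega⟩ : Fin m).succ = y := Fin.ext (by simp; omega)
      rw [e1, e2] at h4
      exact lt_trans h3 h4
  have h3 : (w j.succ).val = (w j.castSucc).val + 1 := by
    by_contra hcon
    -- the intermediate value
    have h4 := hinc 0 (w j.castSucc) ⟨(w j.castSucc).val + 1, by omega⟩ h1
      (by simp only; omega) rfl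
    have h5 := hinc ((w j.succ).val - ((w j.castSucc).val + 1) - 1)
      ⟨(w j.castSucc).val + 1, by omega⟩ (w j.succ) (by simp only; omega) h2
      (by simp only; omega)
    rw [inv_self_apply, Fin.lt_def, Fin.val_castSucc] at h4
    rw [inv_self_apply, Fin.lt_def, Fin.val_succ] at h5
    omega
  have hlt : (w j.castSucc).val < m := by
    have := (w j.succ).isLt
    omega
  refine ⟨⟨(w j.castSucc).val, hlt⟩, mem_Jset h hk h1 (by simp only; omega), j, hj,
    Fin.ext rfl, Fin.ext (by simp [h3])⟩

theorem strictMonoOn_aux {N : ℕ} {w : S m} (hw : InD N w) :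
    ∀ d : ℕ, ∀ x y : Fin (m + 1), (y.val ≤ N ∨ N < x.val) → x.val + d + 1 = y.val →
      w x < w y := by
  intro d
  induction d with
  | zero =>
    intro x y hxy h1
    have h2 := hw ⟨x.val, by omega⟩ (by simp only; omega)
    have e1 : (⟨x.val, by omega⟩ : Fin m).castSucc = x := Fin.ext rfl
    have e2 : (⟨x.val, by omega⟩ : Fin m).succ = y := Fin.ext (by simp; omega)
    rwa [e1, e2] at h2
  | succ d ih =>
    intro x y hxy h1
    have h3 := ih x ⟨x.val + d + 1, by omega⟩ (by simp only; omega) rfl
    have h4 := hw ⟨x.val + d + 1, by omega⟩ (by simp only; omega)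
    have e1 : (⟨x.val + d + 1, by omega⟩ : Fin m).castSucc = ⟨x.val + d + 1, by omega⟩ :=
      Fin.ext rfl
    have e2 : (⟨x.val + d + 1, by omega⟩ : Fin m).succ = y := Fin.ext (by simp; omega)
    rw [e1, e2] at h4
    exact lt_trans h3 h4

theorem InD.lt {N : ℕ} {w : S m} (hw : InD N w) {x y : Fin (m + 1)}
    (h : y.val ≤ N ∨ N < x.val) (hxy : x < y) : w x < w y := by
  have hxy' : x.val < y.val := hxy
  exact strictMonoOn_aux hw (y.val - x.val - 1) x y h (by omega)

/-- Elements of `D` with the same values on `{0, …, N}` are equal. -/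
theorem InD.eq_of {N : ℕ} {w u : S m} (hw : InD N w) (hu : InD N u)
    (h : ∀ x : Fin (m + 1), x.val ≤ N → w x = u x) : w = u := by
  -- `v = u⁻¹ w` fixes `{0, …, N}` and is increasing on the rest
  have key : ∀ x : Fin (m + 1), N < x.val → N < (u⁻¹ (w x)).val := by
    intro x hx
    by_contra hcon
    have h1 := h (u⁻¹ (w x)) (by omega)
    rw [apply_inv_self'] at h1
    have h2 := w.injective h1
    rw [h2] at hcon
    omega
  have hv : ∀ i, Asc ((u⁻¹ * w)⁻¹) i := by
    intro i
    unfold Asc
    rw [_root_.inv_inv, Equiv.Perm.mul_apply, Equiv.Perm.mul_apply]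
    have hlt : i.castSucc < i.succ := by
      rw [Fin.lt_def]
      simp
    rcases Nat.lt_or_ge N i.castSucc.val with h1 | h1
    · -- both are large
      have h2 : w i.castSucc < w i.succ := hw.lt (Or.inr h1) hlt
      have h3 := key _ h1
      have h4 := key i.succ (by rw [Fin.val_succ]; rw [Fin.val_castSucc] at h1; omega)
      by_contra hcon
      rw [not_lt] at hcon
      rcases lt_or_eq_of_le hcon with h5 | h5
      · have h6 := hu.lt (Or.inr h4) h5
        rw [apply_inv_self', apply_inv_self'] at h6
        exact absurd (lt_trans h2 h6) (lt_irrefl _)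
      · have h6 := (w.injective ((u⁻¹).injective h5))
        rw [h6] at hlt
        exact absurd hlt (lt_irrefl _)
    · rw [h _ h1, inv_self_apply]
      rcases Nat.lt_or_ge N i.succ.val with h2 | h2
      · have h3 := key _ h2
        rw [Fin.lt_def]
        omega
      · rw [h _ h2, inv_self_apply]
        exact hlt
  have h1 := eq_one_of_asc hv
  rw [inv_eq_one, inv_mul_eq_one] at h1
  exact h1.symm

/-- The characterisation of `γ`. -/
theorem gam_unique {N : ℕ} {M : ℕ → ℕ} (h : Comp N m M) {γ : S m} (hγ : InD N γ)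
    (hγ2 : ∀ x : Fin (m + 1), x.val ≤ N → (γ x).val = M x.val) {w : S m} (hw : InD N w)
    (hJ : ∀ i ∈ Jset N m M, Asc w i) : Bad N (Jset N m M) w ∨ w = γ := by
  by_cases hbad : Bad N (Jset N m M) w
  · exact Or.inl hbad
  right
  have hNm := h.N_le
  have hstep : ∀ j : Fin m, j.val < N → w j.castSucc < w j.succ := fun j hj =>
    hw j (by omega)
  -- lower bounds
  have hlow : ∀ k : ℕ, ∀ x : Fin (m + 1), x.val = k → k ≤ N → M k ≤ (w x).val := by
    intro k
    induction k with
    | zero => intro x _ _; rw [h.zero]; exact Nat.zero_le _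
    | succ k ih =>
      intro x hx hk
      have h1 := ih (⟨k, by omega⟩ : Fin m).castSucc rfl (by omega)
      have e : x = (⟨k, by omega⟩ : Fin m).succ := Fin.ext (by simp; omega)
      rw [e]
      by_contra hcon
      exact hbad (bad_of_block h hJ (j := ⟨k, by omega⟩) (by simp only; omega)
        (hstep _ (by simp only; omega)) (show k ≤ N by omega) h1 (by omega))
  -- upper bounds
  have hup : ∀ d : ℕ, ∀ x : Fin (m + 1), x.val + d = N → (w x).val < M (x.val + 1) := by
    intro d
    induction d with
    | zero =>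
      intro x hx
      rw [show x.val + 1 = N + 1 by omega, h.last]
      exact (w x).isLt
    | succ d ih =>
      intro x hx
      have h1 := ih (⟨x.val, by omega⟩ : Fin m).succ (by simp; omega)
      have h3 : (⟨x.val, by omega⟩ : Fin m).castSucc = x := Fin.ext rfl
      by_contra hcon
      rw [Fin.val_succ] at h1
      exact hbad (bad_of_block h hJ (j := ⟨x.val, by omega⟩) (by simp only; omega)
        (hstep _ (by simp only; omega)) (show x.val + 1 ≤ N by omega)
        (by rw [h3]; omega) h1)
  have hval : ∀ x : Fin (m + 1), x.val ≤ N → (w x).val = M x.val := by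
    intro x hx
    have h1 := hlow x.val x rfl hx
    have h2 := hup (N - x.val) x (by omega)
    by_contra hcon
    have h3 : M x.val < (w x).val := by omega
    -- the value below
    have hlt : (w x).val - 1 < m := by
      have := (w x).isLt
      omega
    have h4 := hJ ⟨(w x).val - 1, hlt⟩ (mem_Jset h hx (by simp only; omega)
      (by simp only; omega))
    unfold Asc at h4
    have e2 : (⟨(w x).val - 1, hlt⟩ : Fin m).succ = w x := Fin.ext (by simp; omega)
    rw [e2, inv_self_apply] at h4
    set y := w⁻¹ (⟨(w x).val - 1, hlt⟩ : Fin m).castSucc with hy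
    have h5 : (w y).val = (w x).val - 1 := by
      rw [hy, apply_inv_self']
      rfl
    have h6 : y.val < x.val := h4
    have h7 := hup (N - y.val) y (by omega)
    have h8 : M (y.val + 1) ≤ M x.val := by
      rcases Nat.eq_or_lt_of_le (show y.val + 1 ≤ x.val from h6) with h9 | h9
      · rw [h9]
      · exact le_of_lt (h.mono h9 (by omega))
    omega
  apply hw.eq_of hγ
  intro x hx
  exact Fin.ext (by rw [hval x hx, hγ2 x hx])

/-- The permutation `γ` and its reduced word. -/
theorem exists_gam {N : ℕ} {M : ℕ → ℕ} (h : Comp N m M) :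
    ∃ ω : List (Fin m), ω.map Fin.val = gw M 1 N ∧ ω.length = inv (wp ω) ∧ InD N (wp ω) ∧
      (∀ x : Fin (m + 1), x.val ≤ N → (wp ω x).val = M x.val) := by
  obtain ⟨ω, hω⟩ := exists_fin_word (m := m) (gw M 1 N) (gw_lt h N 1 le_rfl (by omega))
  obtain ⟨p1, p2, p3, p4⟩ := gw_props h N 1 le_rfl (by omega)
  have hval : ∀ x : Fin (m + 1), x.val ≤ N → (wp ω x).val = M x.val := by
    intro x hx
    rw [act_wp, hω]
    rcases Nat.eq_zero_or_pos x.val with h1 | h1
    · rw [h1, p1 0 (by omega), h.zero]
    · exact p2 _ h1 (by omega)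
  refine ⟨ω, hω, (gw_inv h N 1 le_rfl (by omega) ω hω).symm, ?_, hval⟩
  intro j hj
  rw [Fin.lt_def]
  rcases Nat.lt_or_ge j.val N with h1 | h1
  · rw [hval _ (by rw [Fin.val_castSucc]; omega), hval _ (by rw [Fin.val_succ]; omega),
      Fin.val_castSucc, Fin.val_succ]
    exact h.mono (by omega) (by omega)
  · rw [act_wp, act_wp, hω, Fin.val_castSucc, Fin.val_succ]
    exact p3 _ _ (by omega) (by omega)

/-! ### Descents in parabolic subgroups -/

theorem par_preserve {J : Set (Fin m)} {w : S m} (hw : w ∈ par J) {i : Fin m} (hi : i ∉ J)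
    (x : Fin (m + 1)) : (w x).val ≤ i.val ↔ x.val ≤ i.val := by
  induction hw using Subgroup.closure_induction generalizing x with
  | mem y hy =>
    obtain ⟨j, hj, rfl⟩ := hy
    have h1 : j.val ≠ i.val := fun h => hi (by rwa [← Fin.ext h])
    rw [s_val]
    split_ifs <;> omega
  | one => rfl
  | mul a b _ _ ha hb =>
    rw [Equiv.Perm.mul_apply, ha, hb]
  | inv a _ ha =>
    rw [← ha (a⁻¹ x), apply_inv_self']

theorem desc_mem {J : Set (Fin m)} {w : S m} (hw : w ∈ par J) {i : Fin m} (hi : Desc w i) :
    i ∈ J := by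
  by_contra hcon
  have hi' : w⁻¹ i.succ < w⁻¹ i.castSucc := hi
  rw [Fin.lt_def] at hi'
  have h1 := par_preserve (inv_mem hw) hcon i.castSucc
  have h2 := par_preserve (inv_mem hw) hcon i.succ
  rw [Fin.val_castSucc] at h1
  rw [Fin.val_succ] at h2
  omega

section

variable {K A : Type*} [Field K] [Ring A] [Algebra K A] {q : K} {t : Fin m → A}

theorem Rel.T_mul_of_par (h : Rel q t) {J : Set (Fin m)} {E : A}
    (hE : ∀ i ∈ J, t i * E = q • E) {w : S m} (hw : w ∈ par J) :
    T t w * E = q ^ inv w • E := by
  induction hn : inv w using Nat.strong_induction_on generalizing w with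
  | _ n ih =>
    by_cases h1 : w = 1
    · rw [← hn, h1, inv_one, T_one, one_mul, pow_zero, one_smul]
    · obtain ⟨i, hi⟩ := exists_desc h1
      have h2 := inv_desc hi
      have h3 := desc_mem hw hi
      have h4 := ih _ (by omega) (mul_mem (s_mem_par h3) hw) rfl
      rw [h.T_desc hi, mul_assoc, h4, mul_smul_comm, hE i h3, smul_smul, ← pow_succ]
      congr 2
      omega

open Classical in
theorem Rel.Esum_mul (h : Rel q t) {J : Set (Fin m)} {E : A} (hE : ∀ i ∈ J, t i * E = q • E) :
    Esum t q J * E = (∑ w ∈ univ.filter (fun w => w ∈ par J), q ^ (2 * inv w)) • E := by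
  unfold Esum
  rw [sum_mul, sum_smul]
  apply sum_congr rfl
  intro w hw
  rw [smul_mul_assoc, h.T_mul_of_par hE (mem_filter.1 hw).2, smul_smul, ← pow_add, two_mul]

end

end Q27.Hk
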