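import Mathlib

/-!
# Inversions of permutations and Matsumoto's theorem for the symmetric group
-/

set_option autoImplicit false

namespace Q27.Hk

open Equiv Finset

variable {m : ℕ}

/-- The symmetric group `S_{m+1}`. -/
abbrev S (m : ℕ) := Equiv.Perm (Fin (m + 1))

/-- The adjacent transpositions. -/
def s (i : Fin m) : S m := Equiv.swap i.castSucc i.succ

@[simp] theorem s_mul_self (i : Fin m) : s i * s i = 1 := Equiv.swap_mul_self _ _

@[simp] theorem s_mul_cancel (i : Fin m) (w : S m) : s i * (s i * w) = w := by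
  rw [← mul_assoc, s_mul_self, one_mul]

@[simp] theorem mul_s_cancel (i : Fin m) (w : S m) : w * s i * s i = w := by
  rw [mul_assoc, s_mul_self, mul_one]

@[simp] theorem s_inv (i : Fin m) : (s i)⁻¹ = s i := Equiv.swap_inv _ _

@[simp] theorem s_castSucc (i : Fin m) : s i i.castSucc = i.succ := Equiv.swap_apply_left _ _
@[simp] theorem s_succ (i : Fin m) : s i i.succ = i.castSucc := Equiv.swap_apply_right _ _

theorem s_of_ne {i : Fin m} {x : Fin (m + 1)} (h1 : x.val ≠ i.val) (h2 : x.val ≠ i.val + 1) :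
    s i x = x := by
  apply Equiv.swap_apply_of_ne_of_ne
  · intro h
    exact h1 (by rw [h]; rfl)
  · intro h
    exact h2 (by rw [h]; rfl)

theorem s_s (i : Fin m) (x : Fin (m + 1)) : s i (s i x) = x := by
  rw [← Equiv.Perm.mul_apply, s_mul_self, Equiv.Perm.one_apply]

/-- The values of `s i`. -/
theorem s_val (i : Fin m) (x : Fin (m + 1)) :
    (s i x).val = if x.val = i.val then i.val + 1 else if x.val = i.val + 1 then i.val else x.val := by
  by_cases h1 : x.val = i.val
  · have : x = i.castSucc := Fin.ext h1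
    rw [if_pos h1, this, s_castSucc]
    rfl
  · by_cases h2 : x.val = i.val + 1
    · have : x = i.succ := Fin.ext h2
      rw [if_neg h1, if_pos h2, this, s_succ]
      rfl
    · rw [if_neg h1, if_neg h2, s_of_ne h1 h2]

theorem s_lt {i : Fin m} {a b : Fin (m + 1)} (h : a < b) (hab : ¬ (a = i.castSucc ∧ b = i.succ)) :
    s i a < s i b := by
  have h1 := s_val i a
  have h2 := s_val i b
  have h3 : a.val < b.val := h
  have h4 : ¬ (a.val = i.val ∧ b.val = i.val + 1) := fun hh => hab ⟨Fin.ext hh.1, Fin.ext hh.2⟩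
  rw [Fin.lt_def, h1, h2]
  split_ifs <;> omega

/-- The transposition of `i` and `i + 1` on the natural numbers. -/
def sw (i a : ℕ) : ℕ := if a = i then i + 1 else if a = i + 1 then i else a

theorem s_val' (i : Fin m) (x : Fin (m + 1)) : (s i x).val = sw i.val x.val := s_val i x

theorem sw_comm (i j a : ℕ) (h : i + 1 < j) : sw i (sw j a) = sw j (sw i a) := by
  unfold sw
  split_ifs <;> omega

theorem sw_self (i : ℕ) : sw i i = i + 1 := by unfold sw; rw [if_pos rfl]
theorem sw_succ (i : ℕ) : sw i (i + 1) = i := by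
  unfold sw; rw [if_neg (by omega), if_pos rfl]
theorem sw_of (i a : ℕ) (h1 : a ≠ i) (h2 : a ≠ i + 1) : sw i a = a := by
  unfold sw; rw [if_neg h1, if_neg h2]

theorem sw_braid (i a : ℕ) : sw i (sw (i + 1) (sw i a)) = sw (i + 1) (sw i (sw (i + 1) a)) := by
  by_cases h1 : a = i
  · subst h1
    rw [sw_self, sw_self, sw_of a (a + 1 + 1) (by omega) (by omega),
      sw_of (a + 1) a (by omega) (by omega), sw_self, sw_self]
  by_cases h2 : a = i + 1
  · subst h2
    rw [sw_succ, sw_of (i + 1) i (by omega) (by omega), sw_self, sw_self,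
      sw_of i (i + 1 + 1) (by omega) (by omega), sw_succ]
  by_cases h3 : a = i + 1 + 1
  · subst h3
    rw [sw_of i (i + 1 + 1) (by omega) (by omega), sw_succ, sw_succ,
      sw_of (i + 1) i (by omega) (by omega)]
  · rw [sw_of i a h1 h2, sw_of (i + 1) a h2 h3, sw_of i a h1 h2, sw_of (i + 1) a h2 h3]

theorem s_comm {i j : Fin m} (h : i.val + 1 < j.val) : s i * s j = s j * s i := by
  ext x
  rw [Equiv.Perm.mul_apply, Equiv.Perm.mul_apply, s_val', s_val', s_val', s_val', sw_comm _ _ _ h]

theorem s_braid {i j : Fin m} (h : j.val = i.val + 1) : s i * s j * s i = s j * s i * s j := by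
  ext x
  simp only [Equiv.Perm.mul_apply, s_val', h]
  exact sw_braid _ _

/-- `i` is an ascent: `w⁻¹ (i) < w⁻¹ (i + 1)`. -/
def Asc (w : S m) (i : Fin m) : Prop := w⁻¹ i.castSucc < w⁻¹ i.succ

/-- `i` is a descent: `w⁻¹ (i + 1) < w⁻¹ (i)`. -/
def Desc (w : S m) (i : Fin m) : Prop := w⁻¹ i.succ < w⁻¹ i.castSucc

theorem asc_or_desc (w : S m) (i : Fin m) : Asc w i ∨ Desc w i := by
  rcases lt_trichotomy (w⁻¹ i.castSucc) (w⁻¹ i.succ) with h | h | h
  · exact Or.inl h
  · exfalso
    have := w⁻¹.injective h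
    have h2 := congrArg Fin.val this
    simp at h2
  · exact Or.inr h

theorem not_asc {w : S m} {i : Fin m} : ¬ Asc w i ↔ Desc w i := by
  constructor
  · intro h
    rcases asc_or_desc w i with h1 | h1
    · exact absurd h1 h
    · exact h1
  · intro h h1
    exact absurd (lt_trans h h1) (lt_irrefl _)

theorem inv_s_mul (w : S m) (i : Fin m) (x : Fin (m + 1)) : (s i * w)⁻¹ x = w⁻¹ (s i x) := by
  rw [mul_inv_rev, s_inv, Equiv.Perm.mul_apply]

theorem asc_s_mul {w : S m} {i : Fin m} : Asc (s i * w) i ↔ Desc w i := by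
  unfold Asc Desc
  rw [inv_s_mul, inv_s_mul, s_castSucc, s_succ]

theorem desc_s_mul {w : S m} {i : Fin m} : Desc (s i * w) i ↔ Asc w i := by
  unfold Asc Desc
  rw [inv_s_mul, inv_s_mul, s_castSucc, s_succ]

/-- The set of inversions (pairs of values). -/
def invs (w : S m) : Finset (Fin (m + 1) × Fin (m + 1)) :=
  univ.filter fun p => p.1 < p.2 ∧ w⁻¹ p.2 < w⁻¹ p.1

/-- The number of inversions. -/
def inv (w : S m) : ℕ := (invs w).card

theorem mem_invs {w : S m} {p : Fin (m + 1) × Fin (m + 1)} :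
    p ∈ invs w ↔ p.1 < p.2 ∧ w⁻¹ p.2 < w⁻¹ p.1 := by
  unfold invs
  rw [mem_filter]
  exact ⟨fun h => h.2, fun h => ⟨mem_univ _, h⟩⟩

theorem inv_one : inv (1 : S m) = 0 := by
  unfold inv
  rw [card_eq_zero, eq_empty_iff_forall_notMem]
  intro p hp
  rw [mem_invs] at hp
  rw [_root_.inv_one, Equiv.Perm.one_apply, Equiv.Perm.one_apply] at hp
  exact absurd (lt_trans hp.1 hp.2) (lt_irrefl _)

theorem inv_asc {w : S m} {i : Fin m} (h : Asc w i) : inv (s i * w) = inv w + 1 := by
  classical
  have hni : (i.castSucc, i.succ) ∉ (invs w).image (fun p => (s i p.1, s i p.2)) := by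
    intro hmem
    rw [mem_image] at hmem
    obtain ⟨p, hp, he⟩ := hmem
    rw [mem_invs] at hp
    have h1 : p.1 = i.succ := by
      have := congrArg Prod.fst he
      simp only at this
      rw [← s_s i p.1, this, s_castSucc]
    have h2 : p.2 = i.castSucc := by
      have := congrArg Prod.snd he
      simp only at this
      rw [← s_s i p.2, this, s_succ]
    rw [h1, h2] at hp
    have h3 := hp.1
    rw [Fin.lt_def] at h3
    simp at h3
  have e : invs (s i * w) = insert (i.castSucc, i.succ)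
      ((invs w).image (fun p => (s i p.1, s i p.2))) := by
    ext p
    rw [mem_insert, mem_image, mem_invs, inv_s_mul, inv_s_mul]
    constructor
    · rintro ⟨h1, h2⟩
      by_cases hp : p.1 = i.castSucc ∧ p.2 = i.succ
      · left
        exact Prod.ext hp.1 hp.2
      · right
        refine ⟨(s i p.1, s i p.2), ?_, ?_⟩
        · rw [mem_invs]
          exact ⟨s_lt h1 hp, h2⟩
        · simp only [s_s]
    · rintro (h1 | ⟨r, hr, h1⟩)
      · rw [h1]
        simp only [s_castSucc, s_succ]
        refine ⟨?_, h⟩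
        rw [Fin.lt_def]
        simp
      · rw [mem_invs] at hr
        rw [← h1]
        simp only [s_s]
        refine ⟨s_lt hr.1 ?_, hr.2⟩
        rintro ⟨h2, h3⟩
        rw [h2, h3] at hr
        exact absurd (lt_trans hr.2 h) (lt_irrefl _)
  unfold inv
  rw [e, card_insert_of_notMem hni, card_image_of_injective]
  intro p r hpr
  have h1 := congrArg Prod.fst hpr
  have h2 := congrArg Prod.snd hpr
  simp only at h1 h2
  exact Prod.ext ((s i).injective h1) ((s i).injective h2)

theorem inv_desc {w : S m} {i : Fin m} (h : Desc w i) : inv w = inv (s i * w) + 1 := by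
  have h1 := inv_asc (asc_s_mul.2 h)
  rwa [s_mul_cancel] at h1

theorem inv_self_apply (w : S m) (x : Fin (m + 1)) : w⁻¹ (w x) = x := by
  rw [← Equiv.Perm.mul_apply, inv_mul_cancel, Equiv.Perm.one_apply]

theorem apply_inv_self' (w : S m) (x : Fin (m + 1)) : w (w⁻¹ x) = x := by
  rw [← Equiv.Perm.mul_apply, mul_inv_cancel, Equiv.Perm.one_apply]

theorem inv_symm (w : S m) : inv w⁻¹ = inv w := by
  unfold inv
  apply card_bij' (fun p _ => (w p.2, w p.1)) (fun p _ => (w⁻¹ p.2, w⁻¹ p.1))
  · intro p hp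
    rw [mem_invs] at hp ⊢
    rw [_root_.inv_inv] at hp
    change w p.2 < w p.1 ∧ w⁻¹ (w p.1) < w⁻¹ (w p.2)
    rw [inv_self_apply, inv_self_apply]
    exact ⟨hp.2, hp.1⟩
  · intro p hp
    rw [mem_invs] at hp ⊢
    rw [_root_.inv_inv]
    change w⁻¹ p.2 < w⁻¹ p.1 ∧ w (w⁻¹ p.1) < w (w⁻¹ p.2)
    rw [apply_inv_self', apply_inv_self']
    exact ⟨hp.2, hp.1⟩
  · intro p _
    simp
  · intro p _
    simp

theorem inv_mul_s_asc {w : S m} {i : Fin m} (h : w i.castSucc < w i.succ) :
    inv (w * s i) = inv w + 1 := by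
  rw [← inv_symm, mul_inv_rev, s_inv, ← inv_symm w]
  apply inv_asc
  unfold Asc
  rwa [_root_.inv_inv]

theorem inv_mul_s_desc {w : S m} {i : Fin m} (h : w i.succ < w i.castSucc) :
    inv w = inv (w * s i) + 1 := by
  rw [← inv_symm (w * s i), mul_inv_rev, s_inv, ← inv_symm w]
  apply inv_desc
  unfold Desc
  rwa [_root_.inv_inv]

/-- A permutation without descents is trivial. -/
theorem eq_one_of_asc {w : S m} (h : ∀ i, Asc w i) : w = 1 := by
  have hm : StrictMono (fun x => w⁻¹ x) := Fin.strictMono_iff_lt_succ.2 h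
  have h2 : ∀ x, w⁻¹ x = x := by
    intro x
    have h4 : (hm.orderIsoOfSurjective _ (w⁻¹).surjective) = OrderIso.refl _ :=
      Subsingleton.elim _ _
    exact congrArg (fun e : Fin (m + 1) ≃o Fin (m + 1) => e x) h4
  rw [← inv_eq_one]
  ext x
  rw [h2, Equiv.Perm.one_apply]

theorem exists_desc {w : S m} (h : w ≠ 1) : ∃ i, Desc w i := by
  by_contra hcon
  push Not at hcon
  apply h
  apply eq_one_of_asc
  intro i
  rcases asc_or_desc w i with h1 | h1
  · exact h1
  · exact absurd h1 (hcon i)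

theorem eq_one_of_inv {w : S m} (h : inv w = 0) : w = 1 := by
  by_contra hcon
  obtain ⟨i, hi⟩ := exists_desc hcon
  have := inv_desc hi
  omega

/-! ### Words -/

/-- The permutation of a word. -/
def wp (ω : List (Fin m)) : S m := (ω.map s).prod

@[simp] theorem wp_nil : wp ([] : List (Fin m)) = 1 := rfl
@[simp] theorem wp_cons (i : Fin m) (ω : List (Fin m)) : wp (i :: ω) = s i * wp ω := by
  unfold wp
  rw [List.map_cons, List.prod_cons]

theorem inv_wp_le (ω : List (Fin m)) : inv (wp ω) ≤ ω.length := by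
  induction ω with
  | nil => rw [wp_nil, inv_one]; exact Nat.zero_le _
  | cons i ω ih =>
    rw [wp_cons, List.length_cons]
    rcases asc_or_desc (wp ω) i with h | h
    · rw [inv_asc h]; omega
    · have := inv_desc h; omega

theorem exists_word (w : S m) : ∃ ω : List (Fin m), wp ω = w ∧ ω.length = inv w := by
  induction hn : inv w using Nat.strong_induction_on generalizing w with
  | _ n ih =>
    by_cases hw : w = 1
    · refine ⟨[], by rw [hw]; rfl, ?_⟩
      rw [← hn, hw, inv_one]
      rfl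
    · obtain ⟨i, hi⟩ := exists_desc hw
      have h1 := inv_desc hi
      obtain ⟨ω, h2, h3⟩ := ih (inv (s i * w)) (by omega) (s i * w) rfl
      refine ⟨i :: ω, ?_, ?_⟩
      · rw [wp_cons, h2, s_mul_cancel]
      · rw [List.length_cons, h3]; omega

end Q27.Hk
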