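import Pool.Agent.Q27.Hk.Tw

/-!
# Symmetrisers, antisymmetrisers and a central element
-/

set_option autoImplicit false

namespace Q27.Hk

open Equiv Finset

variable {m : ℕ}

/-- The parabolic subgroup. -/
def par (J : Set (Fin m)) : Subgroup (S m) := Subgroup.closure (s '' J)

theorem s_mem_par {J : Set (Fin m)} {i : Fin m} (hi : i ∈ J) : s i ∈ par J :=
  Subgroup.subset_closure ⟨i, hi, rfl⟩

section

variable {K A : Type*} [Field K] [Ring A] [Algebra K A] {q : K} {t : Fin m → A}

open Classical in
/-- The sum of the `a ^ ℓ(w) T_w` over the parabolic subgroup. -/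
noncomputable def Esum (t : Fin m → A) (a : K) (J : Set (Fin m)) : A :=
  ∑ w ∈ univ.filter (fun w => w ∈ par J), a ^ inv w • T t w

theorem Rel.t_mul_Esum (h : Rel q t) {a : K} (ha : a * a = 1 + (q - q⁻¹) * a)
    {J : Set (Fin m)} {i : Fin m} (hi : i ∈ J) : t i * Esum t a J = a • Esum t a J := by
  classical
  rw [← sub_eq_zero]
  unfold Esum
  rw [mul_sum, smul_sum, ← sum_sub_distrib]
  have key : ∀ w : S m, Asc w i →
      (t i * (a ^ inv w • T t w) - a • (a ^ inv w • T t w)) +
      (t i * (a ^ inv (s i * w) • T t (s i * w)) - a • (a ^ inv (s i * w) • T t (s i * w))) = 0 := by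
    intro w hw
    have h1 := h.mul_T_desc (desc_s_mul.2 hw)
    rw [s_mul_cancel] at h1
    rw [mul_smul_comm, mul_smul_comm, h1, ← h.T_asc hw, inv_asc hw]
    have e1 : a ^ (inv w + 1) * (q - q⁻¹) + a ^ inv w - a * a ^ (inv w + 1) = 0 := by
      have : a ^ (inv w + 1) * (q - q⁻¹) + a ^ inv w - a * a ^ (inv w + 1)
          = a ^ inv w * ((1 + (q - q⁻¹) * a) - a * a) := by ring
      rw [this, ha, sub_self, mul_zero]
    have e2 : (a ^ inv w • T t (s i * w) - a • a ^ inv w • T t w) +
        (a ^ (inv w + 1) • (T t w + (q - q⁻¹) • T t (s i * w)) -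
          a • a ^ (inv w + 1) • T t (s i * w))
        = (a ^ (inv w + 1) * (q - q⁻¹) + a ^ inv w - a * a ^ (inv w + 1)) • T t (s i * w)
          + (a ^ (inv w + 1) - a * a ^ inv w) • T t w := by
      generalize q - q⁻¹ = c
      simp only [smul_add, smul_smul, sub_smul, add_smul]
      abel
    rw [e2, e1, zero_smul, zero_add, pow_succ, mul_comm (a ^ inv w), sub_self, zero_smul]
  apply sum_involution (fun w _ => s i * w)
  · intro w _
    rcases asc_or_desc w i with hw | hw
    · exact key w hw
    · have h1 := key (s i * w) (asc_s_mul.2 hw)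
      rw [s_mul_cancel] at h1
      rw [add_comm]
      exact h1
  · intro w _ _ he
    have h1 : s i = 1 := mul_eq_right.1 he
    have h2 := congrArg (fun f : S m => (f i.castSucc).val) h1
    simp at h2
  · intro w hw
    rw [mem_filter] at hw ⊢
    exact ⟨mem_univ _, mul_mem (s_mem_par hi) hw.2⟩
  · intro w _
    exact s_mul_cancel i w

theorem Rel.Esum_mul_t (h : Rel q t) {a : K} (ha : a * a = 1 + (q - q⁻¹) * a)
    {J : Set (Fin m)} {i : Fin m} (hi : i ∈ J) : Esum t a J * t i = a • Esum t a J := by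
  classical
  rw [← sub_eq_zero]
  unfold Esum
  rw [sum_mul, smul_sum, ← sum_sub_distrib]
  have key : ∀ w : S m, w i.castSucc < w i.succ →
      ((a ^ inv w • T t w) * t i - a • (a ^ inv w • T t w)) +
      ((a ^ inv (w * s i) • T t (w * s i)) * t i - a • (a ^ inv (w * s i) • T t (w * s i))) = 0 := by
    intro w hw
    have h1 : T t (w * s i) * t i = T t w + (q - q⁻¹) • T t (w * s i) := by
      rw [h.T_mul_asc hw, mul_assoc, h.quad, mul_add, mul_one, mul_smul_comm]
    rw [smul_mul_assoc, smul_mul_assoc, h1, ← h.T_mul_asc hw, inv_mul_s_asc hw]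
    have e1 : a ^ (inv w + 1) * (q - q⁻¹) + a ^ inv w - a * a ^ (inv w + 1) = 0 := by
      have : a ^ (inv w + 1) * (q - q⁻¹) + a ^ inv w - a * a ^ (inv w + 1)
          = a ^ inv w * ((1 + (q - q⁻¹) * a) - a * a) := by ring
      rw [this, ha, sub_self, mul_zero]
    have e2 : (a ^ inv w • T t (w * s i) - a • a ^ inv w • T t w) +
        (a ^ (inv w + 1) • (T t w + (q - q⁻¹) • T t (w * s i)) -
          a • a ^ (inv w + 1) • T t (w * s i))
        = (a ^ (inv w + 1) * (q - q⁻¹) + a ^ inv w - a * a ^ (inv w + 1)) • T t (w * s i)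
          + (a ^ (inv w + 1) - a * a ^ inv w) • T t w := by
      generalize q - q⁻¹ = c
      simp only [smul_add, smul_smul, sub_smul, add_smul]
      abel
    rw [e2, e1, zero_smul, zero_add, pow_succ, mul_comm (a ^ inv w), sub_self, zero_smul]
  apply sum_involution (fun w _ => w * s i)
  · intro w _
    rcases lt_or_gt_of_ne (fun he : w i.castSucc = w i.succ => by
      have := congrArg Fin.val (w.injective he)
      simp at this) with hw | hw
    · exact key w hw
    · have h1 := key (w * s i) (by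
        rw [Equiv.Perm.mul_apply, Equiv.Perm.mul_apply, s_castSucc, s_succ]
        exact hw)
      rw [mul_s_cancel] at h1
      rw [add_comm]
      exact h1
  · intro w _ _ he
    have h1 : s i = 1 := mul_eq_left.1 he
    have h2 := congrArg (fun f : S m => (f i.castSucc).val) h1
    simp at h2
  · intro w hw
    rw [mem_filter] at hw ⊢
    exact ⟨mem_univ _, mul_mem hw.2 (s_mem_par hi)⟩
  · intro w _
    exact mul_s_cancel i w

/-! ### The antisymmetriser commutes with the far generators -/

theorem fix_of_mem {N : ℕ} {w : S m} (hw : w ∈ par {i : Fin m | i.val < N}) :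
    ∀ x : Fin (m + 1), N < x.val → w x = x := by
  induction hw using Subgroup.closure_induction with
  | mem x hx =>
    obtain ⟨i, hi, rfl⟩ := hx
    intro x hx
    have : i.val < N := hi
    exact s_of_ne (by omega) (by omega)
  | one => intro x _; rfl
  | mul a b _ _ ha hb =>
    intro x hx
    rw [Equiv.Perm.mul_apply, hb x hx, ha x hx]
  | inv a _ ha =>
    intro x hx
    have h1 := ha x hx
    have h2 := inv_self_apply a x
    rwa [h1] at h2

theorem Rel.comm_of_fix (h : Rel q t) {N : ℕ} {w : S m}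
    (hw : ∀ x : Fin (m + 1), N < x.val → w x = x) {j : Fin m} (hj : N < j.val) :
    T t w * t j = t j * T t w := by
  induction hn : inv w using Nat.strong_induction_on generalizing w with
  | _ n ih =>
    by_cases hw1 : w = 1
    · rw [hw1, T_one, one_mul, mul_one]
    obtain ⟨i, hi⟩ := exists_desc hw1
    have h1 := inv_desc hi
    have hfix : ∀ x : Fin (m + 1), N < x.val → w⁻¹ x = x := by
      intro x hx
      have h2 := inv_self_apply w x
      rwa [hw x hx] at h2
    have hiN : i.val < N := by
      by_contra hcon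
      have hi' : w⁻¹ i.succ < w⁻¹ i.castSucc := hi
      rw [hfix i.succ (by simp; omega), Fin.lt_def, Fin.val_succ] at hi'
      have h3 : N < (w⁻¹ i.castSucc).val := by omega
      have h4 := apply_inv_self' w i.castSucc
      rw [hw _ h3] at h4
      rw [h4, Fin.val_castSucc] at hi'
      omega
    have h2 : ∀ x : Fin (m + 1), N < x.val → (s i * w) x = x := by
      intro x hx
      rw [Equiv.Perm.mul_apply, hw x hx]
      exact s_of_ne (by omega) (by omega)
    have h3 := ih _ (by omega) h2 rfl
    rw [h.T_desc hi, mul_assoc, h3, ← mul_assoc, h.comm i j (by omega), mul_assoc]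

theorem Rel.Esum_comm (h : Rel q t) (a : K) {N : ℕ} {j : Fin m} (hj : N < j.val) :
    Esum t a {i : Fin m | i.val < N} * t j = t j * Esum t a {i : Fin m | i.val < N} := by
  classical
  unfold Esum
  rw [sum_mul, mul_sum]
  apply sum_congr rfl
  intro w hw
  rw [mem_filter] at hw
  rw [smul_mul_assoc, mul_smul_comm, h.comm_of_fix (fix_of_mem hw.2) hj]

/-! ### The central element -/

/-- Minimal representatives for the parabolic subgroup `S_{N+1} × S_{m-N}`. -/
def InD (N : ℕ) (d : S m) : Prop := ∀ j : Fin m, j.val ≠ N → d j.castSucc < d j.succ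

/-- The elements `A` which commute with `t_j`, `j ≠ N`. -/
def Nice (t : Fin m → A) (N : ℕ) (X : A) : Prop := ∀ j : Fin m, j.val ≠ N → X * t j = t j * X

open Classical in
/-- The sum of the `T_d X T_{d⁻¹}`. -/
noncomputable def Zs (t : Fin m → A) (N : ℕ) (X : A) : A :=
  ∑ d ∈ univ.filter (fun d => InD N d), T t d * X * T t d⁻¹

theorem inD_of_desc {N : ℕ} {d : S m} (hd : InD N d) {i : Fin m} (hi : Desc d i) :
    InD N (s i * d) := by
  intro j hj
  rw [Equiv.Perm.mul_apply, Equiv.Perm.mul_apply]
  apply s_lt (hd j hj)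
  rintro ⟨h1, h2⟩
  have h3 : d⁻¹ i.castSucc = j.castSucc := by rw [← h1, inv_self_apply]
  have h4 : d⁻¹ i.succ = j.succ := by rw [← h2, inv_self_apply]
  have h5 : d⁻¹ i.succ < d⁻¹ i.castSucc := hi
  rw [h3, h4, Fin.lt_def] at h5
  simp at h5

theorem not_inD {N : ℕ} {d : S m} (hd : InD N d) {i : Fin m} (hi : ¬ InD N (s i * d)) :
    ∃ j : Fin m, j.val ≠ N ∧ d j.castSucc = i.castSucc ∧ d j.succ = i.succ := by
  unfold InD at hi
  push Not at hi
  obtain ⟨j, hj, h1⟩ := hi
  refine ⟨j, hj, ?_⟩
  by_contra hcon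
  have h2 := s_lt (hd j hj) hcon
  rw [Equiv.Perm.mul_apply, Equiv.Perm.mul_apply] at h1
  exact absurd h2 (not_lt.2 h1)

/-- If `d j = i`, `d (j + 1) = i + 1`. -/
theorem s_mul_eq {d : S m} {i j : Fin m} (h1 : d j.castSucc = i.castSucc)
    (h2 : d j.succ = i.succ) : s i * d = d * s j := by
  unfold s
  rw [← h1, ← h2, Equiv.mul_swap_eq_swap_mul]

theorem Rel.t_T (h : Rel q t) {d : S m} {i j : Fin m} (h1 : d j.castSucc = i.castSucc)
    (h2 : d j.succ = i.succ) : t i * T t d = T t d * t j := by
  have h3 : Asc d i := by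
    unfold Asc
    rw [← h1, ← h2, inv_self_apply, inv_self_apply, Fin.lt_def]
    simp
  have h4 : d j.castSucc < d j.succ := by
    rw [h1, h2, Fin.lt_def]
    simp
  rw [← h.T_asc h3, s_mul_eq h1 h2, h.T_mul_asc h4]

theorem Rel.T_t (h : Rel q t) {d : S m} {i j : Fin m} (h1 : d j.castSucc = i.castSucc)
    (h2 : d j.succ = i.succ) : T t d⁻¹ * t i = t j * T t d⁻¹ := by
  refine (h.t_T (d := d⁻¹) (i := j) (j := i) ?_ ?_).symm
  · rw [← h1, inv_self_apply]
  · rw [← h2, inv_self_apply]

theorem Rel.conj_asc (h : Rel q t) (X : A) {d : S m} {i : Fin m} (hi : Asc d i) :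
    T t (s i * d) * X * T t (s i * d)⁻¹ = t i * (T t d * X * T t d⁻¹) * t i := by
  have h1 : T t (s i * d)⁻¹ = T t d⁻¹ * t i := by
    rw [mul_inv_rev, s_inv]
    exact h.T_mul_asc hi
  rw [h1, h.T_asc hi]
  simp only [mul_assoc]

theorem Rel.t_Zs (h : Rel q t) {N : ℕ} {X : A} (hX : Nice t N X) (i : Fin m) :
    t i * Zs t N X = Zs t N X * t i := by
  classical
  rw [← sub_eq_zero]
  unfold Zs
  rw [mul_sum, sum_mul, ← sum_sub_distrib]
  have key : ∀ d : S m, Asc d i →
      (t i * (T t d * X * T t d⁻¹) - T t d * X * T t d⁻¹ * t i) +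
      (t i * (T t (s i * d) * X * T t (s i * d)⁻¹) -
        T t (s i * d) * X * T t (s i * d)⁻¹ * t i) = 0 := by
    intro d hd
    rw [h.conj_asc X hd]
    generalize T t d * X * T t d⁻¹ = x
    have e1 : t i * (t i * x * t i) = x * t i + (q - q⁻¹) • (t i * x * t i) := by
      rw [← mul_assoc, ← mul_assoc, h.quad, add_mul, add_mul, one_mul, smul_mul_assoc,
        smul_mul_assoc]
    have e2 : t i * x * t i * t i = t i * x + (q - q⁻¹) • (t i * x * t i) := by
      rw [mul_assoc (t i * x), h.quad, mul_add, mul_one, mul_smul_comm]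
    rw [e1, e2]
    abel
  apply sum_involution (fun d _ => if InD N (s i * d) then s i * d else d)
  · intro d hd
    rw [mem_filter] at hd
    by_cases h1 : InD N (s i * d)
    · rw [if_pos h1]
      rcases asc_or_desc d i with hi | hi
      · exact key d hi
      · have h2 := key (s i * d) (asc_s_mul.2 hi)
        rw [s_mul_cancel] at h2
        rw [add_comm]
        exact h2
    · rw [if_neg h1]
      obtain ⟨j, hj, h2, h3⟩ := not_inD hd.2 h1
      have h4 : t i * (T t d * X * T t d⁻¹) = T t d * X * T t d⁻¹ * t i := by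
        rw [← mul_assoc, ← mul_assoc, h.t_T h2 h3, mul_assoc (T t d) (t j), ← hX j hj,
          mul_assoc (T t d * X), h.T_t h2 h3]
        simp only [mul_assoc]
      rw [h4, sub_self, add_zero]
  · intro d hd hne he
    rw [mem_filter] at hd
    by_cases h1 : InD N (s i * d)
    · rw [if_pos h1] at he
      have h2 : s i = 1 := mul_eq_right.1 he
      have h3 := congrArg (fun f : S m => (f i.castSucc).val) h2
      simp at h3
    · apply hne
      obtain ⟨j, hj, h2, h3⟩ := not_inD hd.2 h1
      have h4 : t i * (T t d * X * T t d⁻¹) = T t d * X * T t d⁻¹ * t i := by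
        rw [← mul_assoc, ← mul_assoc, h.t_T h2 h3, mul_assoc (T t d) (t j), ← hX j hj,
          mul_assoc (T t d * X), h.T_t h2 h3]
        simp only [mul_assoc]
      rw [h4, sub_self]
  · intro d hd
    rw [mem_filter] at hd ⊢
    split_ifs with h1
    · exact ⟨mem_univ _, h1⟩
    · exact hd
  · intro d hd
    rw [mem_filter] at hd
    by_cases h1 : InD N (s i * d)
    · simp only [if_pos h1, s_mul_cancel, if_pos hd.2]
    · simp only [if_neg h1]

end

end Q27.Hk
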