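import Pool.Agent.Q27.Hk.Perm

/-!
# The elements `T_w` of an algebra with generators of Hecke type
-/

set_option autoImplicit false

namespace Q27.Hk

open Equiv Finset

variable {m : ℕ}

/-- Elements `t_i` with the relations of the Hecke algebra of the symmetric group `S_{m+1}`;
`c = q - q⁻¹`. -/
structure Rel {K A : Type*} [Field K] [Ring A] [Algebra K A] (q : K) (t : Fin m → A) : Prop where
  braid : ∀ i j : Fin m, j.val = i.val + 1 → t i * t j * t i = t j * t i * t j
  comm : ∀ i j : Fin m, i.val + 1 < j.val → t i * t j = t j * t i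
  quad : ∀ i : Fin m, t i * t i = 1 + (q - q⁻¹) • t i

section defs

variable {A : Type*} [Monoid A] (t : Fin m → A)

open Classical in
/-- Auxiliary function with fuel. -/
noncomputable def Taux : ℕ → S m → A
  | 0, _ => 1
  | k + 1, w => if h : ∃ i, Desc w i then t h.choose * Taux k (s h.choose * w) else 1

/-- The element `T_w`. -/
noncomputable def T (w : S m) : A := Taux t (inv w) w

theorem T_one : T t (1 : S m) = 1 := by
  unfold T
  rw [inv_one]
  rfl

theorem T_unfold {w : S m} (h : ∃ i, Desc w i) :
    T t w = t h.choose * T t (s h.choose * w) := by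
  have h1 := inv_desc h.choose_spec
  have h2 : T t w = Taux t (inv (s h.choose * w) + 1) w := by
    unfold T
    rw [← h1]
  rw [h2, Taux, dif_pos h]
  rfl

end defs

section monoid

variable {A : Type*} [Monoid A] {t : Fin m → A}

/-- Transfer of descents under a commuting transposition. -/
theorem desc_of_far {w : S m} {i j : Fin m} (h : i.val + 1 < j.val ∨ j.val + 1 < i.val) :
    Desc (s j * w) i ↔ Desc w i := by
  unfold Desc
  rw [inv_s_mul, inv_s_mul, s_of_ne (i := j) (x := i.castSucc) (by simp; omega) (by simp; omega),
    s_of_ne (i := j) (x := i.succ) (by simp; omega) (by simp; omega)]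

theorem s_comm' {i j : Fin m} (h : i.val + 1 < j.val ∨ j.val + 1 < i.val) :
    s i * s j = s j * s i := by
  rcases h with h | h
  · exact s_comm h
  · exact (s_comm h).symm

theorem T_desc (hb : ∀ i j : Fin m, j.val = i.val + 1 → t i * t j * t i = t j * t i * t j)
    (hc : ∀ i j : Fin m, i.val + 1 < j.val → t i * t j = t j * t i) {w : S m} {i : Fin m}
    (hi : Desc w i) : T t w = t i * T t (s i * w) := by
  induction hn : inv w using Nat.strong_induction_on generalizing w i with
  | _ n ih =>
    have hc' : ∀ i j : Fin m, (i.val + 1 < j.val ∨ j.val + 1 < i.val) → t i * t j = t j * t i := by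
      intro i j h
      rcases h with h | h
      · exact hc i j h
      · exact (hc j i h).symm
    -- two descents give the same result
    have far : ∀ i j : Fin m, Desc w i → Desc w j → (i.val + 1 < j.val ∨ j.val + 1 < i.val) →
        t i * T t (s i * w) = t j * T t (s j * w) := by
      intro i j hi hj hij
      have h1 := inv_desc hi
      have h2 := inv_desc hj
      have h3 : Desc (s i * w) j := (desc_of_far hij.symm).2 hj
      have h4 : Desc (s j * w) i := (desc_of_far hij).2 hi
      have e : s j * (s i * w) = s i * (s j * w) := by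
        rw [← mul_assoc, ← mul_assoc, s_comm' hij]
      rw [ih _ (by omega) h3 rfl, ih _ (by omega) h4 rfl, e, ← mul_assoc, hc' i j hij, mul_assoc]
    have adj : ∀ i j : Fin m, Desc w i → Desc w j → j.val = i.val + 1 →
        t i * T t (s i * w) = t j * T t (s j * w) := by
      intro i j hi hj hij
      have h1 := inv_desc hi
      have h2 := inv_desc hj
      have ejs : j.castSucc = i.succ := Fin.ext (by simp; omega)
      have hi' : w⁻¹ i.succ < w⁻¹ i.castSucc := hi
      have hj' : w⁻¹ j.succ < w⁻¹ i.succ := by
        have : w⁻¹ j.succ < w⁻¹ j.castSucc := hj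
        rwa [ejs] at this
      -- values
      have e1 : s i j.succ = j.succ := s_of_ne (by simp; omega) (by simp; omega)
      have e2 : s j i.castSucc = i.castSucc := s_of_ne (by simp; omega) (by simp; omega)
      have e3 : s j i.succ = j.succ := by rw [← ejs, s_castSucc]
      have e4 : s j j.succ = i.succ := by rw [s_succ, ejs]
      -- `s i * w` has the descent `j`
      have h3 : Desc (s i * w) j := by
        unfold Desc
        rw [inv_s_mul, inv_s_mul, e1, ejs, s_succ]
        exact lt_trans hj' hi'
      have h4 : Desc (s j * w) i := by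
        unfold Desc
        rw [inv_s_mul, inv_s_mul, e2, e3]
        exact lt_trans hj' hi'
      have h5 : Desc (s j * (s i * w)) i := by
        unfold Desc
        rw [inv_s_mul, inv_s_mul, inv_s_mul, inv_s_mul, e2, e3, e1, s_castSucc]
        exact hj'
      have h6 : Desc (s i * (s j * w)) j := by
        unfold Desc
        rw [inv_s_mul, inv_s_mul, inv_s_mul, inv_s_mul, e1, e4, ejs, s_succ, e2]
        exact hi'
      have h7 := inv_desc h3
      have h8 := inv_desc h4
      rw [ih _ (by omega) h3 rfl, ih _ (by omega) h4 rfl, ih _ (by omega) h5 rfl,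
        ih _ (by omega) h6 rfl]
      have e5 : s i * (s j * (s i * w)) = s j * (s i * (s j * w)) := by
        rw [← mul_assoc, ← mul_assoc, s_braid hij, mul_assoc, mul_assoc]
      rw [e5, ← mul_assoc, ← mul_assoc, hb i j hij, mul_assoc, mul_assoc]
    have hex : ∃ i, Desc w i := ⟨i, hi⟩
    rw [T_unfold t hex]
    have hj := hex.choose_spec
    set j := hex.choose with hjdef
    rcases lt_trichotomy i.val j.val with h | h | h
    · rcases Nat.lt_or_ge (i.val + 1) j.val with h1 | h1
      · exact (far i j hi hj (Or.inl h1)).symm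
      · exact (adj i j hi hj (by omega)).symm
    · have : i = j := Fin.ext h
      rw [this]
    · rcases Nat.lt_or_ge (j.val + 1) i.val with h1 | h1
      · exact far j i hj hi (Or.inl h1)
      · exact adj j i hj hi (by omega)

end monoid

section alg

variable {K A : Type*} [Field K] [Ring A] [Algebra K A] {q : K} {t : Fin m → A}

theorem Rel.T_desc (h : Rel q t) {w : S m} {i : Fin m} (hi : Desc w i) :
    T t w = t i * T t (s i * w) := Q27.Hk.T_desc h.braid h.comm hi

theorem Rel.T_asc (h : Rel q t) {w : S m} {i : Fin m} (hi : Asc w i) :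
    T t (s i * w) = t i * T t w := by
  rw [h.T_desc (desc_s_mul.2 hi), s_mul_cancel]

theorem Rel.T_s (h : Rel q t) (i : Fin m) : T t (s i) = t i := by
  have h1 : Asc (1 : S m) i := by
    unfold Asc
    rw [_root_.inv_one, Equiv.Perm.one_apply, Equiv.Perm.one_apply, Fin.lt_def]
    simp
  have h2 := h.T_asc h1
  rw [mul_one, T_one, mul_one] at h2
  exact h2

theorem Rel.mul_T_desc (h : Rel q t) {w : S m} {i : Fin m} (hi : Desc w i) :
    t i * T t w = T t (s i * w) + (q - q⁻¹) • T t w := by
  rw [h.T_desc hi, ← mul_assoc, h.quad, add_mul, one_mul, smul_mul_assoc]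

theorem Rel.T_mul_asc (h : Rel q t) {w : S m} {i : Fin m} (hi : w i.castSucc < w i.succ) :
    T t (w * s i) = T t w * t i := by
  induction hn : inv w using Nat.strong_induction_on generalizing w with
  | _ n ih =>
    by_cases hw : w = 1
    · rw [hw, one_mul, T_one, one_mul, h.T_s]
    obtain ⟨j, hj⟩ := exists_desc hw
    have h1 := inv_desc hj
    have hwi : ∀ x, w⁻¹ (w x) = x := inv_self_apply w
    have hwi' : ∀ x, w (w⁻¹ x) = x := apply_inv_self' w
    -- `j` is a descent of `w * s i`
    have h2 : Desc (w * s i) j := by
      unfold Desc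
      rw [mul_inv_rev, s_inv, Equiv.Perm.mul_apply, Equiv.Perm.mul_apply]
      apply s_lt hj
      rintro ⟨h3, h4⟩
      have h5 : w i.castSucc = j.succ := by rw [← h3, hwi']
      have h6 : w i.succ = j.castSucc := by rw [← h4, hwi']
      rw [h5, h6, Fin.lt_def] at hi
      simp at hi
    have h3 : (s j * w) i.castSucc < (s j * w) i.succ := by
      rw [Equiv.Perm.mul_apply, Equiv.Perm.mul_apply]
      apply s_lt hi
      rintro ⟨h3, h4⟩
      have h5 : w⁻¹ j.castSucc = i.castSucc := by rw [← h3, hwi]
      have h6 : w⁻¹ j.succ = i.succ := by rw [← h4, hwi]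
      have h7 : w⁻¹ j.succ < w⁻¹ j.castSucc := hj
      rw [h5, h6, Fin.lt_def] at h7
      simp at h7
    rw [h.T_desc h2, ← mul_assoc, ih _ (by omega) h3 rfl, h.T_desc hj, mul_assoc]

theorem Rel.T_mul_desc (h : Rel q t) {w : S m} {i : Fin m} (hi : w i.succ < w i.castSucc) :
    T t w = T t (w * s i) * t i := by
  have h1 : (w * s i) i.castSucc < (w * s i) i.succ := by
    rw [Equiv.Perm.mul_apply, Equiv.Perm.mul_apply, s_castSucc, s_succ]
    exact hi
  have h2 := h.T_mul_asc h1
  rwa [mul_s_cancel] at h2

/-- The value of `T` on a reduced word. -/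
theorem Rel.T_word (h : Rel q t) {ω : List (Fin m)} (hω : ω.length = inv (wp ω)) :
    T t (wp ω) = (ω.map t).prod := by
  induction ω with
  | nil => rw [wp_nil, T_one]; rfl
  | cons i ω ih =>
    have h1 := inv_wp_le ω
    rw [wp_cons, List.length_cons] at hω
    rcases asc_or_desc (wp ω) i with h2 | h2
    · rw [inv_asc h2] at hω
      rw [wp_cons, List.map_cons, List.prod_cons, h.T_asc h2, ih (by omega)]
    · have := inv_desc h2
      omega

end alg

end Q27.Hk
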